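import Mathlib

set_option autoImplicit false

namespace Pool.Agent.T3H86.Pell

/-- `H n` and `P n`: `(1 + √2)^n = H n + P n √2`. -/
def HP : ℕ → ℕ × ℕ
  | 0 => (1, 0)
  | n + 1 => ((HP n).1 + 2 * (HP n).2, (HP n).1 + (HP n).2)

def H (n : ℕ) : ℕ := (HP n).1
def P (n : ℕ) : ℕ := (HP n).2

@[simp] lemma H_zero : H 0 = 1 := rfl
@[simp] lemma P_zero : P 0 = 0 := rfl
lemma H_succ (n : ℕ) : H (n + 1) = H n + 2 * P n := rfl
lemma P_succ (n : ℕ) : P (n + 1) = H n + P n := rfl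

lemma add_formula (m n : ℕ) : H (m + n) = H m * H n + 2 * P m * P n ∧ P (m + n) = P m * H n + H m * P n := by
  induction n with
  | zero => simp
  | succ n ih =>
    obtain ⟨h1, h2⟩ := ih
    rw [← Nat.add_assoc, H_succ, P_succ, H_succ, P_succ, h1, h2]
    constructor <;> ring

lemma H_add (m n : ℕ) : H (m + n) = H m * H n + 2 * P m * P n := (add_formula m n).1
lemma P_add (m n : ℕ) : P (m + n) = P m * H n + H m * P n := (add_formula m n).2

lemma norm_eq (n : ℕ) : (H n : ℤ) ^ 2 - 2 * (P n : ℤ) ^ 2 = (-1) ^ n := by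
  induction n with
  | zero => simp
  | succ n ih =>
    rw [H_succ, P_succ, pow_succ (-1 : ℤ) n, ← ih]
    push_cast
    ring

lemma H_pos (n : ℕ) : 1 ≤ H n := by
  induction n with
  | zero => simp
  | succ n ih => rw [H_succ]; omega

lemma P_pos (n : ℕ) (hn : 1 ≤ n) : 1 ≤ P n := by
  obtain ⟨m, rfl⟩ : ∃ m, n = m + 1 := ⟨n - 1, by omega⟩
  rw [P_succ]
  have := H_pos m
  omega

lemma P_le_H (n : ℕ) : P n ≤ H n := by
  induction n with
  | zero => simp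
  | succ n ih => rw [H_succ, P_succ]; omega

lemma P_dvd_mul (m k : ℕ) : P m ∣ P (m * k) := by
  induction k with
  | zero => simp
  | succ k ih =>
    rw [Nat.mul_succ, P_add]
    exact Dvd.dvd.add (Dvd.dvd.mul_right ih _) (Dvd.intro_left _ rfl)

lemma P_dvd {m n : ℕ} (h : m ∣ n) : P m ∣ P n := by
  obtain ⟨k, rfl⟩ := h
  exact P_dvd_mul m k

/-- modulo `P m`: `H (m k) ≡ H m ^ k`; modulo `P m ^ 2`: `P (m (k+1)) ≡ (k+1) P m H m ^ k`. -/
lemma H_mod (m k : ℕ) : (P m : ℤ) ∣ (H (m * k) : ℤ) - (H m : ℤ) ^ k := by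
  induction k with
  | zero => simp
  | succ k ih =>
    rw [Nat.mul_succ, H_add]
    push_cast
    obtain ⟨a, ha⟩ := ih
    refine ⟨a * H m + 2 * P (m * k), ?_⟩
    have : (H (m * k) : ℤ) = (H m : ℤ) ^ k + P m * a := by linarith
    rw [this]
    ring

lemma P_mod (m k : ℕ) : (P m : ℤ) ^ 2 ∣ (P (m * (k + 1)) : ℤ) - (k + 1) * P m * (H m : ℤ) ^ k := by
  induction k with
  | zero => simp
  | succ k ih =>
    rw [Nat.mul_succ, P_add]
    push_cast
    obtain ⟨a, ha⟩ := ih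
    obtain ⟨b, hb⟩ := H_mod m (k + 1)
    refine ⟨a * H m + b, ?_⟩
    have h1 : (P (m * (k + 1)) : ℤ) = (k + 1) * P m * (H m : ℤ) ^ k + (P m : ℤ) ^ 2 * a := by linarith
    have h2 : (H (m * (k + 1)) : ℤ) = (H m : ℤ) ^ (k + 1) + P m * b := by linarith
    rw [h1, h2]
    ring

/-- if `d ∣ P m` then `d² ∣ P (m d)`. -/
lemma sq_dvd {m d : ℕ} (hd : 1 ≤ d) (h : d ∣ P m) : d ^ 2 ∣ P (m * d) := by
  obtain ⟨k, rfl⟩ : ∃ k, d = k + 1 := ⟨d - 1, by omega⟩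
  have h1 := P_mod m k
  obtain ⟨c, hc⟩ := h
  have h2 : (((k + 1 : ℕ) : ℤ)) ^ 2 ∣ (P m : ℤ) ^ 2 := by
    rw [hc]; push_cast; rw [mul_pow]; exact Dvd.intro _ rfl
  have h3 : (((k + 1 : ℕ) : ℤ)) ^ 2 ∣ ((k : ℤ) + 1) * P m * (H m : ℤ) ^ k := by
    rw [hc]; push_cast
    refine ⟨c * (H m : ℤ) ^ k, by ring⟩
  have h4 := (h2.trans h1).add h3
  rw [sub_add_cancel] at h4
  exact_mod_cast h4

/-- coprimality of `H m` and `P m` -/
lemma coprime_HP (m : ℕ) : Nat.Coprime (H m) (P m) := by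
  have h := norm_eq m
  rw [← Nat.isCoprime_iff_coprime]
  rcases Nat.even_or_odd m with hm | hm
  · rw [hm.neg_one_pow] at h
    exact ⟨H m, -2 * P m, by linarith⟩
  · rw [hm.neg_one_pow] at h
    exact ⟨-H m, 2 * P m, by linarith⟩

lemma dvd_of_dvd_add {p m n : ℕ} (h1 : p ∣ P m) (h2 : p ∣ P (m + n)) : p ∣ P n := by
  rw [P_add] at h2
  have h3 : p ∣ H m * P n := (Nat.dvd_add_right (Dvd.dvd.mul_right h1 _)).1 h2
  exact (Nat.Coprime.coprime_dvd_right h1 (coprime_HP m)).symm.dvd_of_dvd_mul_left h3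

lemma dvd_gcd {p : ℕ} (m n : ℕ) (h1 : p ∣ P m) (h2 : p ∣ P n) : p ∣ P (Nat.gcd m n) := by
  induction m, n using Nat.gcd.induction with
  | H0 n => simpa using h2
  | H1 m n hm ih =>
    rw [Nat.gcd_rec]
    apply ih _ h1
    have h3 : p ∣ P (m * (n / m)) := h1.trans (P_dvd_mul m _)
    have h4 : n = m * (n / m) + n % m := (Nat.div_add_mod n m).symm
    rw [h4] at h2
    exact dvd_of_dvd_add h3 h2

end Pool.Agent.T3H86.Pell
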