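import Pool.Agent.T3H86.Pell

set_option autoImplicit false

namespace Pool.Agent.T3H86.Pell

lemma zsqrt_pow (n : ℕ) : ((⟨1, 1⟩ : ℤ√2) ^ n) = ⟨(H n : ℤ), (P n : ℤ)⟩ := by
  induction n with
  | zero => simp; rfl
  | succ n ih =>
    rw [pow_succ, ih, H_succ, P_succ]
    ext
    · simp
    · simp

lemma sqrt_pow (k : ℕ) : ((⟨0, 1⟩ : ℤ√2) ^ (2 * k + 1)) = ⟨0, 2 ^ k⟩ := by
  induction k with
  | zero => simp
  | succ k ih =>
    rw [show 2 * (k + 1) + 1 = (2 * k + 1) + 2 by ring, pow_add, ih]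
    ext
    · simp [pow_two]
    · simp [pow_two, pow_succ]

lemma P_prime_mod {p : ℕ} (hp : p.Prime) (k : ℕ) (hk : p = 2 * k + 1) : (p : ℤ) ∣ (P p : ℤ) - 2 ^ k := by
  obtain ⟨r, hr⟩ := exists_add_pow_prime_eq hp (1 : ℤ√2) (⟨0, 1⟩ : ℤ√2)
  have h1 : (1 : ℤ√2) + ⟨0, 1⟩ = ⟨1, 1⟩ := by ext <;> simp
  rw [h1, zsqrt_pow] at hr
  have h2 := congrArg Zsqrtd.im hr
  rw [one_pow] at h2
  have h3 : ((⟨0, 1⟩ : ℤ√2) ^ p) = ⟨0, 2 ^ k⟩ := by
    rw [hk]; exact sqrt_pow k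
  rw [h3] at h2
  simp at h2
  exact ⟨r.re, by linarith⟩

lemma catalan (m : ℕ) (hm : Odd m) : (P (m - 1) : ℤ) * P (m + 1) = (P m : ℤ) ^ 2 - 1 := by
  obtain ⟨k, rfl⟩ := hm
  have h := norm_eq (2 * k)
  rw [show 2 * k + 1 - 1 = 2 * k by omega, P_succ (2 * k + 1), P_succ, H_succ]
  have h2 : (-1 : ℤ) ^ (2 * k) = 1 := by rw [pow_mul]; simp
  rw [h2] at h
  push_cast
  nlinarith

lemma dvd_P_pm {p : ℕ} (hp : p.Prime) (hp2 : p ≠ 2) : p ∣ P (p - 1) ∨ p ∣ P (p + 1) := by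
  obtain ⟨k, hk⟩ := hp.odd_of_ne_two hp2
  have h1 := P_prime_mod hp k hk
  have h2 : (p : ℤ) ∣ (2 : ℤ) ^ (2 * k) - 1 := by
    have hpf : Fact p.Prime := ⟨hp⟩
    have h3 := ZMod.pow_card_sub_one_eq_one (p := p) (a := (2 : ZMod p)) (by
      intro h
      have h5 : ((2 : ℕ) : ZMod p) = 0 := by exact_mod_cast h
      rw [ZMod.natCast_eq_zero_iff] at h5
      exact hp2 ((Nat.prime_dvd_prime_iff_eq hp Nat.prime_two).1 h5))
    rw [← ZMod.intCast_zmod_eq_zero_iff_dvd]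
    push_cast
    rw [show 2 * k = p - 1 by omega, h3]
    simp
  have h4 : (p : ℤ) ∣ (P p : ℤ) ^ 2 - 1 := by
    have h5 : (P p : ℤ) ^ 2 - 1 = ((P p : ℤ) - 2 ^ k) * ((P p : ℤ) + 2 ^ k) + ((2 : ℤ) ^ (2 * k) - 1) := by
      rw [show (2 : ℤ) ^ (2 * k) = (2 ^ k) ^ 2 by rw [← pow_mul]; ring_nf]
      ring
    rw [h5]
    exact (Dvd.dvd.mul_right h1 _).add h2
  rw [← catalan p ⟨k, hk⟩] at h4
  have h6 : p ∣ P (p - 1) * P (p + 1) := by exact_mod_cast h4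
  exact (Nat.Prime.dvd_mul hp).1 h6

/-- a prime factor of `P q`, `q` an odd prime, is larger than `q`. -/
lemma lt_of_dvd {p q : ℕ} (hp : p.Prime) (hq : q.Prime) (hq2 : q ≠ 2) (h : p ∣ P q) : q < p := by
  have hP1 : P 1 = 1 := rfl
  have hodd : Odd q := hq.odd_of_ne_two hq2
  have hp2 : p ≠ 2 := by
    rintro rfl
    have h2 : 2 ∣ P 2 := by decide
    have h3 := dvd_gcd q 2 h h2
    have h4 : Nat.gcd q 2 = 1 := Nat.coprime_two_right.2 hodd
    rw [h4, hP1] at h3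
    omega
  have key : ∀ n, p ∣ P n → q ∣ n := by
    intro n hn
    by_contra hcon
    have h3 := dvd_gcd q n h hn
    rw [(Nat.Prime.coprime_iff_not_dvd hq).2 hcon, hP1] at h3
    exact hp.one_lt.ne' (Nat.dvd_one.1 h3)
  have hp3 : 3 ≤ p := by
    have := hp.two_le
    omega
  have hpo : Odd p := hp.odd_of_ne_two hp2
  rcases dvd_P_pm hp hp2 with h5 | h5
  · have h6 := Nat.le_of_dvd (by omega) (key _ h5)
    omega
  · have h6 := key _ h5
    have h7 : q ≤ p + 1 := Nat.le_of_dvd (by omega) h6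
    have h8 : q ≠ p + 1 := by
      intro h9
      rw [h9] at hodd
      obtain ⟨a, ha⟩ := hodd
      obtain ⟨b, hb⟩ := hpo
      omega
    have h9 : q ≠ p := by
      rintro rfl
      have h10 : q ∣ 1 := (Nat.dvd_add_right (dvd_refl q)).1 h6
      exact hq.one_lt.ne' (Nat.dvd_one.1 h10)
    omega

/-- The numbers `D` of the construction. -/
def Good (D : ℕ) : Prop := 1 < D ∧ Odd D ∧ Squarefree D ∧ D ^ 2 ∣ P (4 * D)

lemma good_three : Good 3 := by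
  refine ⟨by norm_num, by decide, ?_, ?_⟩
  · exact Nat.prime_three.prime.squarefree
  · decide +kernel

lemma good_step {D : ℕ} (h : Good D) : ∃ D', D < D' ∧ Good D' := by
  obtain ⟨h1, h2, h3, h4⟩ := h
  have hne : D.primeFactors.Nonempty := Nat.nonempty_primeFactors.2 h1
  obtain ⟨q, hq, hmax⟩ := D.primeFactors.exists_max_image id hne
  rw [Nat.mem_primeFactors] at hq
  obtain ⟨hqp, hqD, -⟩ := hq
  have hq2 : q ≠ 2 := by
    rintro rfl
    exact (Nat.not_even_iff_odd.2 h2) (even_iff_two_dvd.2 hqD)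
  have hPq : P q ≠ 1 := by
    obtain ⟨k, hk⟩ := hqp.odd_of_ne_two hq2
    have hk1 : 1 ≤ k := by
      have := hqp.two_le
      omega
    rw [hk, P_succ]
    have h5 := H_pos (2 * k)
    have h6 := P_pos (2 * k) (by omega)
    omega
  obtain ⟨p, hp, hpd⟩ := Nat.exists_prime_and_dvd hPq
  have hlt := lt_of_dvd hp hqp hq2 hpd
  have hpD : ¬ p ∣ D := by
    intro hcon
    have := hmax p (Nat.mem_primeFactors.2 ⟨hp, hcon, by omega⟩)
    simp only [id] at this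
    omega
  have hp2 : p ≠ 2 := by
    have := hqp.two_le
    omega
  have hcop : Nat.Coprime D p := ((Nat.Prime.coprime_iff_not_dvd hp).2 hpD).symm
  refine ⟨D * p, ?_, ?_, ?_, ?_, ?_⟩
  · nlinarith [hp.two_le]
  · nlinarith [hp.two_le]
  · exact h2.mul (hp.odd_of_ne_two hp2)
  · rw [Nat.squarefree_mul hcop]
    exact ⟨h3, hp.prime.squarefree⟩
  · rw [mul_pow]
    apply Nat.Coprime.mul_dvd_of_dvd_of_dvd (Nat.Coprime.pow 2 2 hcop)
    · exact h4.trans (P_dvd ⟨p, by ring⟩)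
    · have h5 : p ∣ P (4 * D) := hpd.trans (P_dvd (Dvd.dvd.mul_left hqD 4))
      have h6 := sq_dvd hp.one_lt.le h5
      rwa [← Nat.mul_assoc]

lemma good_unbounded (N : ℕ) : ∃ D, N ≤ D ∧ Good D := by
  induction N with
  | zero => exact ⟨3, by norm_num, good_three⟩
  | succ N ih =>
    obtain ⟨D, hD, hg⟩ := ih
    obtain ⟨D', hD', hg'⟩ := good_step hg
    exact ⟨D', by omega, hg'⟩

end Pool.Agent.T3H86.Pell
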